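import Mathlib
import Pool.Agent.Lib.MP_c77da8_nt.DL.Words

/-!
# Cunningham chains of every length up to bounded odd factors

For `m j = 2 ^ j`, `r x = 1` and a set `F` of odd numbers the theorem gives, for every `k`, chains of primes
`p_0, ..., p_(k-1)` with `p_j + 1 = b_j * 2 ^ (d * j) * n`, `b_j ∈ F`.  The proof combines a theorem of Maynard-Tao type for
classes of linear forms (`Lib/MP_c77da8_nt/DL`) with the density Hales-Jewett theorem (`Lib/MP_c77da8_nt/SZ`).
-/

set_option autoImplicit false

namespace Pool.Agent.Lib.MP_c77da8_nt.Old.OddFactorChains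

open Finset

/-- For every `k` there are `C`, `N` such that for all `m_0, ..., m_(k-1) ≥ 1`, all `r_0, ..., r_(N-1) ≥ 0`, all `T` and every
set `F` of at least `C ^ T` positive integers, no two of which have a ratio that is a quotient of products of powers of the
`m_j`, there is a nonempty set `X` of indices for which `d = ∑ x ∈ X, r_x` has the property: for infinitely many `n`, for
every `j`, at least `T` of the numbers `b * m_j ^ d * n - 1`, `b ∈ F`, are prime. -/
theorem result (k : ℕ) : ∃ C N : ℕ, ∀ (m : Fin k → ℕ), (∀ j, 1 ≤ m j) → ∀ (r : Fin N → ℕ) (T : ℕ) (F : Finset ℕ),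
    (∀ b ∈ F, 1 ≤ b) →
    (∀ b ∈ F, ∀ b' ∈ F, ∀ u v : Fin k → ℕ, b * ∏ j, m j ^ u j = b' * ∏ j, m j ^ v j → b = b') →
    C ^ T ≤ F.card → ∃ X : Finset (Fin N), X.Nonempty ∧
      {n : ℕ | ∀ j, T ≤ (F.filter (fun b => (b * m j ^ (∑ x ∈ X, r x) * n - 1).Prime)).card}.Infinite :=
  Pool.DL.words k

end Pool.Agent.Lib.MP_c77da8_nt.Old.OddFactorChains
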