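import Pool.Agent.Lib.MP_c77da8_nt.CP.FinF

/-!
# Patterns of primes along geometric progressions of every length

There is `C` such that for every `T ≥ 1` the following holds.

(1) For every `K ≥ C^T` and every `k` there are `D` and `c > 0` such that for all `ε > 0`, all large `N` and every set `F` of `K` positive
integers `≤ log log N` there are a subset `H` of `F` with `T` elements and an integer `a ≥ 2`, `log a ≤ D log log N log log log N`, such that at
least `c N` of the `n ≤ N` have some `b ≥ 1`, `log b ≤ (log log N)^(2 + ε)`, for which all the `k T` numbers `h n b a^j - 1` (`h ∈ H`,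
`0 ≤ j < k`) are prime.

(2) Every set `F` of at least `C^T` positive integers has a subset `H` with `T` elements such that for every `k` there are `D` and `c > 0` such
that for all `ε > 0` there are infinitely many `N` for which some `a` has these properties (with this `H`, which does not depend on `k`).

So for `F = {2^i : i < C^T}` there are `i_1 < ... < i_T < C^T` such that the set of the `m` for which all the `T` numbers `2^(i_l) m - 1` are
prime contains geometric progressions `m, m a, ..., m a^(k-1)` of every length `k`.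
-/

set_option autoImplicit false

namespace Pool.Agent.Lib.MP_c77da8_nt.Old

open Finset

open Classical in
theorem patternProgressions : ∃ C : ℕ, 1 ≤ C ∧ ∀ T : ℕ, 1 ≤ T →
    (∀ K : ℕ, C ^ T ≤ K → ∀ k : ℕ, ∃ (D c : ℝ), 0 < c ∧ ∀ ε : ℝ, 0 < ε → ∃ N₀ : ℕ, ∀ N ≥ N₀, ∀ F : Finset ℕ, F.card = K →
      (∀ h ∈ F, 1 ≤ h ∧ (h : ℝ) ≤ Real.log (Real.log N)) → ∃ H ⊆ F, H.card = T ∧ ∃ a : ℕ, 2 ≤ a ∧
        Real.log a ≤ D * Real.log (Real.log N) * Real.log (Real.log (Real.log N)) ∧
        c * N ≤ (((Icc 1 N).filter fun n => ∃ b : ℕ, 1 ≤ b ∧ Real.log b ≤ Real.log (Real.log N) ^ (2 + ε) ∧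
          ∀ h ∈ H, ∀ j < k, (h * (n * b * a ^ j) - 1).Prime).card : ℝ)) ∧
    (∀ F : Finset ℕ, (∀ h ∈ F, 1 ≤ h) → C ^ T ≤ F.card → ∃ H ⊆ F, H.card = T ∧
      ∀ k : ℕ, ∃ (D c : ℝ), 0 < c ∧ ∀ ε : ℝ, 0 < ε → ∀ N₀ : ℕ, ∃ N ≥ N₀, ∃ a : ℕ, 2 ≤ a ∧
        Real.log a ≤ D * Real.log (Real.log N) * Real.log (Real.log (Real.log N)) ∧
        c * N ≤ (((Icc 1 N).filter fun n => ∃ b : ℕ, 1 ≤ b ∧ Real.log b ≤ Real.log (Real.log N) ^ (2 + ε) ∧
          ∀ h ∈ H, ∀ j < k, (h * (n * b * a ^ j) - 1).Prime).card : ℝ)) :=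
  Pool.CP.final_both

end Pool.Agent.Lib.MP_c77da8_nt.Old
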